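import Pool.Agent.U820.BW.Cx
import Pool.Agent.N661.BR.Defs

/-! # Random plane waves -/

set_option autoImplicit false
open MeasureTheory Filter Topology Set Real
open scoped ContDiff

namespace Pool.Agent.U820.BW

open Pool.Agent.N661.BR
open Pool.Agent.W745.RW (lap dx dy)

noncomputable section

instance fact2pi : Fact (0 < 2 * π) := ⟨by positivity⟩

def pwf (a b : ℝ) (z : ℂ) : ℝ := a * cos z.re - b * sin z.re

theorem re_deriv (z : ℂ) : HasFDerivAt (fun z : ℂ => z.re) Complex.reCLM z := Complex.reCLM.hasFDerivAt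

theorem pwf_fderiv (a b : ℝ) (z v : ℂ) : fderiv ℝ (pwf a b) z v = pwf (-b) a z * v.re := by
  have h1 := ((re_deriv z).cos.const_mul a).sub ((re_deriv z).sin.const_mul b)
  have h2 : HasFDerivAt (pwf a b) _ z := h1
  rw [h2.fderiv]
  simp only [FunLike.coe_sub, FunLike.coe_smul, Pi.sub_apply, Pi.smul_apply,
    Complex.reCLM_apply, smul_eq_mul, pwf]
  ring

theorem pwf_lap (a b : ℝ) (z : ℂ) : lap (pwf a b) z + pwf a b z = 0 := by
  have h1 : dx (pwf a b) = pwf (-b) a := by
    funext z
    show fderiv ℝ (pwf a b) z 1 = _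
    rw [pwf_fderiv]
    simp
  have h2 : dy (pwf a b) = fun _ => 0 := by
    funext z
    show fderiv ℝ (pwf a b) z Complex.I = _
    rw [pwf_fderiv]
    simp
  have h3 : lap (pwf a b) z = fderiv ℝ (dx (pwf a b)) z 1 + fderiv ℝ (dy (pwf a b)) z Complex.I :=
    rfl
  rw [h3, h1, h2, pwf_fderiv]
  simp [pwf]

theorem pwf_smooth (a b : ℝ) : ContDiff ℝ ∞ (pwf a b) := by
  have h : ContDiff ℝ ∞ fun z : ℂ => z.re := Complex.reCLM.contDiff
  exact (contDiff_const.mul h.cos).sub (contDiff_const.mul h.sin)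

def pw (a b : ℝ) : MW := ⟨pwf a b, pwf_smooth a b, pwf_lap a b⟩

theorem shift_pw (x : ℂ) (a b : ℝ) :
    shift x (pw a b) = pw (a * cos x.re - b * sin x.re) (a * sin x.re + b * cos x.re) := by
  apply Subtype.ext
  funext z
  show pwf a b (z + x) = pwf _ _ z
  simp only [pwf, Complex.add_re, cos_add, sin_add]
  ring

def rp (M : ℝ) (θ : AddCircle (2 * π)) : MW :=
  pw (M * Real.Angle.cos θ) (M * Real.Angle.sin θ)

theorem rp_meas (M : ℝ) : Measurable (rp M) := by
  refine Measurable.subtype_mk (measurable_pi_iff.2 fun z => ?_)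
  have h1 : Continuous fun θ : AddCircle (2 * π) => Real.Angle.cos θ := Real.Angle.continuous_cos
  have h2 : Continuous fun θ : AddCircle (2 * π) => Real.Angle.sin θ := Real.Angle.continuous_sin
  exact (((continuous_const.mul h1).mul continuous_const).sub
    ((continuous_const.mul h2).mul continuous_const)).measurable

theorem shift_rp (x : ℂ) (M : ℝ) (θ : AddCircle (2 * π)) :
    shift x (rp M θ) = rp M (θ + ((x.re : ℝ) : AddCircle (2 * π))) := by
  unfold rp
  rw [shift_pw]
  have e1 : Real.Angle.cos (θ + ((x.re : ℝ) : AddCircle (2 * π))) =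
      Real.Angle.cos θ * cos x.re - Real.Angle.sin θ * sin x.re := by
    have := Real.Angle.cos_add θ ((x.re : ℝ) : Real.Angle)
    rwa [Real.Angle.cos_coe, Real.Angle.sin_coe] at this
  have e2 : Real.Angle.sin (θ + ((x.re : ℝ) : AddCircle (2 * π))) =
      Real.Angle.sin θ * cos x.re + Real.Angle.cos θ * sin x.re := by
    have := Real.Angle.sin_add θ ((x.re : ℝ) : Real.Angle)
    rwa [Real.Angle.cos_coe, Real.Angle.sin_coe] at this
  rw [e1, e2]
  congr 1 <;> ring

/-- the law of the plane wave `M cos (x + θ)` with a random phase -/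
def rpw (M : ℝ) : Measure MW := (AddCircle.haarAddCircle (T := 2 * π)).map (rp M)

theorem rpw_prob (M : ℝ) : IsProbabilityMeasure (rpw M) :=
  Measure.isProbabilityMeasure_map (rp_meas M).aemeasurable

theorem rpw_stat (M : ℝ) : IsStationary (rpw M) := by
  intro x
  have hsh : Measurable (shift x) := by
    refine Measurable.subtype_mk (measurable_pi_iff.2 fun z => ?_)
    exact (measurable_pi_apply (z + x)).comp measurable_subtype_coe
  unfold rpw
  rw [Measure.map_map hsh (rp_meas M)]
  have e : shift x ∘ rp M = rp M ∘ fun θ => θ + ((x.re : ℝ) : AddCircle (2 * π)) := by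
    funext θ
    exact shift_rp x M θ
  rw [e, ← Measure.map_map (rp_meas M) (measurable_add_const _),
    (measurePreserving_add_right (AddCircle.haarAddCircle (T := 2 * π)) _).map_eq]

theorem rp_zero (M : ℝ) (θ : AddCircle (2 * π)) : (rp M θ) 0 = M * Real.Angle.cos θ := by
  show pwf _ _ 0 = _
  simp [pwf]

theorem rpw_bd {M : ℝ} (hM : 0 ≤ M) : ∀ᵐ f : MW ∂(rpw M), |f 0| ≤ M := by
  have hm : Measurable fun f : MW => |f 0| :=
    measurable_norm.comp ((measurable_pi_apply (0 : ℂ)).comp measurable_subtype_coe)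
  unfold rpw
  rw [ae_map_iff (rp_meas M).aemeasurable (measurableSet_le hm measurable_const)]
  refine Eventually.of_forall fun θ => ?_
  rw [rp_zero, abs_mul, abs_of_nonneg hM]
  have h1 : |Real.Angle.cos θ| ≤ 1 := by
    have := Real.Angle.cos_sq_add_sin_sq θ
    exact abs_le_one_iff_mul_self_le_one.2 (by nlinarith [sq_nonneg (Real.Angle.sin θ)])
  exact mul_le_of_le_one_right hM h1

theorem rpw_int {g : ℝ → ℝ} (hg : Continuous g) (M : ℝ) :
    ∫ f : MW, g (f 0) ∂(rpw M) = arc g M := by
  have hm : Measurable fun f : MW => g (f 0) :=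
    hg.measurable.comp ((measurable_pi_apply (0 : ℂ)).comp measurable_subtype_coe)
  unfold rpw
  rw [integral_map (rp_meas M).aemeasurable hm.aestronglyMeasurable]
  simp only [rp_zero]
  rw [AddCircle.integral_haarAddCircle, ← AddCircle.intervalIntegral_preimage (2 * π) 0]
  have e1 : ∫ t in (0 : ℝ)..0 + 2 * π, g (M * Real.Angle.cos ((t : ℝ) : AddCircle (2 * π))) =
      ∫ t in (0 : ℝ)..2 * π, g (M * cos t) := by
    rw [zero_add]
    rfl
  rw [e1]
  have ii : ∀ a b, IntervalIntegrable (fun t => g (M * cos t)) volume a b := fun a b =>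
    (G_cont hg M).intervalIntegrable a b
  have e2 : ∫ t in (π)..2 * π, g (M * cos t) = ∫ t in (0 : ℝ)..π, g (M * cos t) := by
    have h := intervalIntegral.integral_comp_sub_left (a := 0) (b := π)
      (fun t => g (M * cos t)) (2 * π)
    have h2 : ∫ t in (0 : ℝ)..π, g (M * cos (2 * π - t)) = ∫ t in (0 : ℝ)..π, g (M * cos t) := by
      simp only [cos_two_pi_sub]
    rw [h2] at h
    rw [h]
    congr 1 <;> ring
  rw [← intervalIntegral.integral_add_adjacent_intervals (ii 0 π) (ii π (2 * π)), e2]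
  unfold arc
  rw [smul_eq_mul]
  field_simp
  ring

end

end Pool.Agent.U820.BW
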