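import Pool.Agent.U820.BW.Rw
import Pool.Agent.U524.SN.HA

/-! # Bounded random waves: the convex order, hyperbolic areas -/

set_option autoImplicit false
open MeasureTheory Filter Topology ProbabilityTheory
open scoped ContDiff ENNReal

namespace Pool.Agent.U820.BW

open Pool.Agent.W745.RW (lap)
open Pool.Agent.N661.BR (MW lin IsStationary meas_eval)
open Pool.Agent.N661.BH (HP)
open Pool.Agent.U26.SB (ConvergesAlongH harea hm hm_fin hm_pos hm_univ hm_real u_meas conv_pt)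
open Pool.Agent.U524.SN (hint)

noncomputable section

theorem harea_cx {σ : ℕ → ℕ} {Ω : Set ℂ} {lam : ℕ → ℝ} {u : ℕ → ℂ → ℝ} {μ : Measure MW}
    [IsProbabilityMeasure μ] (hΩ : IsOpen Ω) (hHP : Ω ⊆ HP) (hne : Ω.Nonempty)
    (hA : IntegrableOn (fun z : ℂ => 1 / z.im ^ 2) Ω) (hu : ∀ n, ContDiffOn ℝ ∞ (u n) HP)
    (hs : IsStationary μ) (h : ConvergesAlongH σ Ω lam u μ) {M : ℝ} (hM : 0 ≤ M)
    (hsm : Tendsto (fun n => harea {z | z ∈ Ω ∧ M < |u (σ n) z|}) atTop (𝓝 0))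
    {g : ℝ → ℝ} (hg : ConvexOn ℝ Set.univ g) {ε : ℝ} (hε : 0 < ε) :
    ∀ᶠ n in atTop, ∫ z in Ω, g (cl M (u (σ n) z)) * (1 / z.im ^ 2) ≤
      (arc g M + ε) * harea Ω := by
  have hf := hm_fin hA
  have h1 := trunc_cx (ν := hm Ω) (hm_pos hΩ hHP hne) (μ := μ) hs (X := fun n z => u (σ n) z)
    (fun n => u_meas hΩ hHP hu _) (fun τ => conv_pt h τ) (M := M) hM (by
      refine hsm.congr fun n => ?_
      rw [hm_real hΩ]
      rfl) hg hε
  filter_upwards [h1] with n hn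
  rw [hm_univ hΩ, hint] at hn
  exact hn

/-- **All quantum ergodic sequences** -/
theorem qe_cx_h {Ω : Set ℂ} (hΩ : IsOpen Ω) (hHP : Ω ⊆ HP) (hne : Ω.Nonempty)
    (hA : IntegrableOn (fun z : ℂ => 1 / z.im ^ 2) Ω)
    {lam : ℕ → ℝ} (hpos : ∀ n, 0 < lam n) (hlam : Tendsto lam atTop atTop)
    {u : ℕ → ℂ → ℝ} (hu : ∀ n, ContDiffOn ℝ ∞ (u n) HP)
    (heq : ∀ n, ∀ z ∈ HP, z.im ^ 2 * lap (u n) z + lam n * u n z = 0)
    (hqe : Pool.Agent.N661.BH.IsQuantumErgodic Ω lam u)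
    {M : ℝ} (hM : 0 ≤ M) {g : ℝ → ℝ} (hg : ConvexOn ℝ Set.univ g) {ε : ℝ} (hε : 0 < ε) :
    ∃ δ : ℝ, 0 < δ ∧ ∀ᶠ n in atTop, harea {z | z ∈ Ω ∧ M < |u n z|} ≤ δ →
      ∫ z in Ω, g (cl M (u n z)) * (1 / z.im ^ 2) ≤ (arc g M + ε) * harea Ω := by
  by_contra hcon
  push Not at hcon
  have hcon' : ∀ j : ℕ, ∃ᶠ n in atTop, harea {z | z ∈ Ω ∧ M < |u n z|} ≤ 1 / ((j : ℝ) + 1) ∧
      (arc g M + ε) * harea Ω < ∫ z in Ω, g (cl M (u n z)) * (1 / z.im ^ 2) := fun j =>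
    hcon _ (by positivity)
  obtain ⟨τ, hτ, hτP⟩ := Filter.extraction_forall_of_frequently hcon'
  have hlam' : Tendsto (lam ∘ τ) atTop atTop := hlam.comp hτ.tendsto_atTop
  have hqe' : Pool.Agent.N661.BH.IsQuantumErgodic Ω (lam ∘ τ) (u ∘ τ) := fun φ hφ k =>
    (hqe φ hφ k).comp hτ.tendsto_atTop
  obtain ⟨σ, μ, hσ, hμp, hμ⟩ := Pool.Agent.U26.SG.hy Ω hΩ hHP hne hA (lam ∘ τ) (fun n => hpos _)
    hlam' (u ∘ τ) (fun n => hu _) (fun n => heq _) hqe'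
  have hex : Pool.Agent.U26.SG.Exh μ := Pool.Agent.U26.SG.exh_hyp (lam := lam ∘ τ) (u := u ∘ τ)
    hΩ hHP hne hA (fun n => hpos _) hlam' (fun n => hu _) (fun n => heq _) hqe' ⟨σ, hσ, hμ⟩
  have h1 := harea_cx (lam := lam ∘ τ) (u := u ∘ τ) (M := M) hΩ hHP hne hA (fun n => hu _)
    hex.st hμ hM (by
      have h2 : Tendsto (fun n : ℕ => 1 / ((n : ℝ) + 1)) atTop (𝓝 0) :=
        tendsto_one_div_add_atTop_nhds_zero_nat
      refine tendsto_of_tendsto_of_tendsto_of_le_of_le tendsto_const_nhds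
        (h2.comp hσ.tendsto_atTop) (fun n => ?_) fun n => ?_
      · exact integral_nonneg fun z => by positivity
      · exact (hτP (σ n)).1) hg hε
  obtain ⟨n, hn⟩ := h1.exists
  exact absurd hn (not_le.2 (hτP (σ n)).2)

end

end Pool.Agent.U820.BW
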