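import Mathlib

/-! # Convex functions and the arcsine law -/

set_option autoImplicit false
open MeasureTheory Filter Topology Set Real

namespace Pool.Agent.U820.BW

noncomputable section

theorem supp_line {g : ℝ → ℝ} (hg : ConvexOn ℝ univ g) (x : ℝ) :
    ∃ p, ∀ y, g x + p * (y - x) ≤ g y := by
  have hx : x ∈ interior (univ : Set ℝ) := by simp
  refine ⟨derivWithin g (Ioi x) x, fun y => ?_⟩
  rcases lt_trichotomy y x with h | rfl | h
  · have h1 := hg.slope_le_leftDeriv_of_mem_interior (mem_univ y) hx h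
    have h2 := hg.leftDeriv_le_rightDeriv_of_mem_interior hx
    have h3 := h1.trans h2
    rw [slope_def_field, div_le_iff₀ (by linarith)] at h3
    linarith
  · simp
  · have h1 := hg.rightDeriv_le_slope_of_mem_interior hx (mem_univ y) h
    rw [slope_def_field, le_div_iff₀ (by linarith)] at h1
    linarith

/-- the mean of `g` for the arcsine law on `[-N, N]` -/
def arc (g : ℝ → ℝ) (N : ℝ) : ℝ := (1 / π) * ∫ t in (0 : ℝ)..π, g (N * cos t)

def A (g : ℝ → ℝ) (N θ : ℝ) : ℝ := ∫ t in (0 : ℝ)..θ, (g (N * cos t) - arc g N)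

def ph (g : ℝ → ℝ) (N x : ℝ) : ℝ := A g N (arccos (x / N)) / √(N ^ 2 - x ^ 2)

def dp (g : ℝ → ℝ) (N x : ℝ) : ℝ := (x * ph g N x - (g x - arc g N)) / (N ^ 2 - x ^ 2)

variable {g : ℝ → ℝ} {N x : ℝ}

theorem G_cont (hg : Continuous g) (N : ℝ) : Continuous fun t => g (N * cos t) :=
  hg.comp (continuous_const.mul continuous_cos)

theorem A_pi (hg : Continuous g) (N : ℝ) : A g N π = 0 := by
  unfold A
  rw [intervalIntegral.integral_sub ((G_cont hg N).intervalIntegrable _ _)
    (continuous_const.intervalIntegrable _ _), intervalIntegral.integral_const]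
  unfold arc
  rw [smul_eq_mul]
  field_simp
  ring

theorem A_deriv (hg : Continuous g) (N θ : ℝ) :
    HasDerivAt (A g N) (g (N * cos θ) - arc g N) θ :=
  (((G_cont hg N).sub continuous_const).integral_hasStrictDerivAt 0 θ).hasDerivAt

theorem pos_of_lt (hx : |x| < N) : 0 < N ∧ 0 < N ^ 2 - x ^ 2 ∧ -1 < x / N ∧ x / N < 1 := by
  have hN : 0 < N := (abs_nonneg x).trans_lt hx
  have h := abs_lt.1 hx
  refine ⟨hN, by nlinarith, ?_, ?_⟩
  · rw [lt_div_iff₀ hN]; linarith
  · rw [div_lt_iff₀ hN]; linarith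

theorem trig (hx : |x| < N) : N * cos (arccos (x / N)) = x ∧
    N * sin (arccos (x / N)) = √(N ^ 2 - x ^ 2) := by
  obtain ⟨hN, h2, h3, h4⟩ := pos_of_lt hx
  refine ⟨?_, ?_⟩
  · rw [cos_arccos h3.le h4.le]
    field_simp
  · rw [sin_arccos]
    have e : N ^ 2 - x ^ 2 = N ^ 2 * (1 - (x / N) ^ 2) := by field_simp
    rw [e, sqrt_mul (sq_nonneg N), sqrt_sq hN.le]

theorem ph_deriv (hg : Continuous g) (hx : |x| < N) : HasDerivAt (ph g N) (dp g N x) x := by
  obtain ⟨hN, h2, h3, h4⟩ := pos_of_lt hx
  obtain ⟨t1, t2⟩ := trig hx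
  have hr : 0 < √(N ^ 2 - x ^ 2) := sqrt_pos.2 h2
  have hrs : √(N ^ 2 - x ^ 2) ^ 2 = N ^ 2 - x ^ 2 := sq_sqrt h2.le
  have e1 : √(1 - (x / N) ^ 2) = √(N ^ 2 - x ^ 2) / N := by
    have e : N ^ 2 - x ^ 2 = N ^ 2 * (1 - (x / N) ^ 2) := by field_simp
    rw [e, sqrt_mul (sq_nonneg N), sqrt_sq hN.le]
    field_simp
  have d1 : HasDerivAt (fun y : ℝ => y / N) (1 / N) x := (hasDerivAt_id x).div_const N
  have d2 : HasDerivAt (fun y : ℝ => arccos (y / N)) (-(1 / √(1 - (x / N) ^ 2)) * (1 / N)) x :=
    (hasDerivAt_arccos (by linarith) (by linarith)).comp x d1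
  have d3 := (A_deriv hg N (arccos (x / N))).comp x d2
  have d4 : HasDerivAt (fun y : ℝ => N ^ 2 - y ^ 2) (-(2 * x)) x := by
    have := (hasDerivAt_pow 2 x).const_sub (N ^ 2)
    simpa using this
  have d5 := d4.sqrt h2.ne'
  have d6 := d3.div d5 hr.ne'
  refine d6.congr_deriv ?_
  unfold dp ph
  simp only [Function.comp]
  rw [t1, e1, hrs]
  have hne : N ^ 2 - x ^ 2 ≠ 0 := h2.ne'
  congr 1
  have hs := hr.ne'
  field_simp
  ring

theorem mul_cos_le {θ : ℝ} (h0 : 0 ≤ θ) (h1 : θ ≤ π / 2) : θ * cos θ ≤ sin θ := by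
  rcases h0.eq_or_lt with rfl | h0
  · simp
  rcases h1.eq_or_lt with rfl | h1
  · simp
  · have h2 := lt_tan h0 h1
    have hc : 0 < cos θ := cos_pos_of_mem_Ioo ⟨by linarith, h1⟩
    rw [tan_eq_sin_div_cos, lt_div_iff₀ hc] at h2
    exact h2.le

theorem lin_int (c p N a b : ℝ) : ∫ t in a..b, (c + p * (N * cos t)) =
    c * (b - a) + p * (N * (sin b - sin a)) := by
  have i1 : IntervalIntegrable (fun _ : ℝ => c) volume a b :=
    continuous_const.intervalIntegrable _ _
  have i2 : IntervalIntegrable (fun t : ℝ => p * (N * cos t)) volume a b :=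
    (continuous_const.mul (continuous_const.mul continuous_cos)).intervalIntegrable _ _
  rw [intervalIntegral.integral_add i1 i2, intervalIntegral.integral_const,
    intervalIntegral.integral_const_mul, intervalIntegral.integral_const_mul, integral_cos,
    smul_eq_mul]
  ring

theorem dp_nonneg (hg : ConvexOn ℝ univ g) (hx : |x| < N) : 0 ≤ dp g N x := by
  have hgc : Continuous g := hg.locallyLipschitz.continuous
  obtain ⟨hN, h2, h3, h4⟩ := pos_of_lt hx
  obtain ⟨t1, t2⟩ := trig hx
  set θ := arccos (x / N) with hθ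
  set r := √(N ^ 2 - x ^ 2) with hr
  have hr0 : 0 < r := sqrt_pos.2 h2
  obtain ⟨p, hp⟩ := supp_line hg x
  have hθ0 : 0 ≤ θ := arccos_nonneg _
  have hθ1 : θ ≤ π := arccos_le_pi _
  have iG : ∀ a b, IntervalIntegrable (fun t => g (N * cos t) - arc g N) volume a b := fun a b =>
    ((G_cont hgc N).sub continuous_const).intervalIntegrable a b
  have iL : ∀ a b, IntervalIntegrable
      (fun t => (g x - p * x - arc g N) + p * (N * cos t)) volume a b := fun a b =>
    (continuous_const.add (continuous_const.mul (continuous_const.mul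
      continuous_cos))).intervalIntegrable a b
  have hle : ∀ t, (g x - p * x - arc g N) + p * (N * cos t) ≤ g (N * cos t) - arc g N := by
    intro t
    have := hp (N * cos t)
    linarith
  have b1 : ∀ a b, a ≤ b → (g x - p * x - arc g N) * (b - a) + p * (N * (sin b - sin a)) ≤
      ∫ t in a..b, (g (N * cos t) - arc g N) := by
    intro a b hab
    rw [← lin_int]
    exact intervalIntegral.integral_mono_on hab (iL a b) (iG a b) fun t _ => hle t
  have hA : A g N θ = -∫ t in θ..π, (g (N * cos t) - arc g N) := by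
    have h5 := intervalIntegral.integral_add_adjacent_intervals (iG 0 θ) (iG θ π)
    have h6 := A_pi hgc N
    unfold A at h6 ⊢
    rw [h6] at h5
    linarith
  have hδ : 0 ≤ p * x + arc g N - g x := by
    have h5 := b1 0 π pi_pos.le
    have h6 := A_pi hgc N
    unfold A at h6
    rw [h6, sin_pi, sin_zero] at h5
    have h7 : (g x - p * x - arc g N) * π ≤ 0 := by linarith
    by_contra hcon
    push Not at hcon
    have : 0 < (g x - p * x - arc g N) * π := mul_pos (by linarith) pi_pos
    linarith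
  have key : (g x - arc g N) * r ≤ x * A g N θ := by
    have hx1 : x = N * cos θ := t1.symm
    have hr1 : r = N * sin θ := t2.symm
    rcases le_total 0 x with hx0 | hx0
    · have h5 := b1 0 θ hθ0
      have hθ2 : θ ≤ π / 2 := arccos_le_pi_div_two.2 (div_nonneg hx0 hN.le)
      have h6 : θ * cos θ ≤ sin θ := mul_cos_le hθ0 hθ2
      have h7 : 0 ≤ r - x * θ := by
        rw [hr1, hx1]
        nlinarith
      have h8 : -(p * x + arc g N - g x) * θ + p * r ≤ A g N θ := by
        unfold A
        rw [sin_zero] at h5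
        rw [hr1]
        linarith
      have h9 := mul_le_mul_of_nonneg_left h8 hx0
      nlinarith [mul_nonneg hδ h7]
    · have h5 := b1 θ π hθ1
      have hθ2 : π / 2 ≤ θ := by
        rw [hθ]
        by_contra hcon
        push Not at hcon
        have : 0 < cos θ := cos_pos_of_mem_Ioo ⟨by linarith [pi_pos], hcon⟩
        have : 0 < x := by rw [hx1]; exact mul_pos hN this
        linarith
      have h6 : (π - θ) * cos (π - θ) ≤ sin (π - θ) :=
        mul_cos_le (by linarith) (by linarith)
      rw [cos_pi_sub, sin_pi_sub] at h6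
      have h7 : 0 ≤ r + x * (π - θ) := by
        rw [hr1, hx1]
        nlinarith
      have h8 : A g N θ ≤ (p * x + arc g N - g x) * (π - θ) + p * r := by
        rw [hA, hr1]
        rw [sin_pi] at h5
        linarith
      have h9 := mul_le_mul_of_nonpos_left h8 hx0
      nlinarith [mul_nonneg hδ h7]
  unfold dp ph
  refine div_nonneg ?_ h2.le
  rw [sub_nonneg, ← mul_div_assoc, le_div_iff₀ hr0]
  exact key

theorem ph_cont (hg : Continuous g) (N : ℝ) : ContinuousOn (ph g N) (Ioo (-N) N) := fun _ hx =>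
  (ph_deriv hg (abs_lt.2 hx)).continuousAt.continuousWithinAt

theorem dp_cont (hg : Continuous g) (N : ℝ) : ContinuousOn (dp g N) (Ioo (-N) N) := by
  unfold dp
  refine ContinuousOn.div ((continuousOn_id.mul (ph_cont hg N)).sub
    (hg.continuousOn.sub continuousOn_const)) (by fun_prop) fun x hx => ?_
  exact (pos_of_lt (abs_lt.2 hx)).2.1.ne'

theorem eqn (hx : |x| < N) : x * ph g N x - dp g N x * (N ^ 2 - x ^ 2) = g x - arc g N := by
  have h := (pos_of_lt hx).2.1.ne'
  unfold dp
  field_simp
  ring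

theorem arc_cont (hg : Continuous g) : Continuous (arc g) := by
  unfold arc
  refine continuous_const.mul ?_
  exact intervalIntegral.continuous_parametric_intervalIntegral_of_continuous' (by fun_prop) _ _

end

end Pool.Agent.U820.BW
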