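import Pool.Agent.U820.BW.Rw

/-! # Bounded linear combinations of jointly stationary waves -/

set_option autoImplicit false
open MeasureTheory Filter Topology ProbabilityTheory
open scoped ContDiff ENNReal

namespace Pool.Agent.U820.BW

open Pool.Agent.W745.RW (lap dx dy)
open Pool.Agent.N661.BR
open Pool.Agent.U26.SB (dx_sum fd_smooth)

noncomputable section

variable {k n : ℕ}

/-- the wave `y ↦ ∑ t_j F_{i_j} (y + w_j)` -/
def jwave (i : Fin n → Fin k) (w : Fin n → ℂ) (t : Fin n → ℝ) (F : Fin k → MW) : MW :=
  ⟨fun y => ∑ j, t j * F (i j) (y + w j), by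
    refine ContDiff.sum fun j _ => contDiff_const.mul ?_
    exact (F (i j)).2.1.comp (contDiff_id.add contDiff_const), fun z => by
    have hg : ∀ j, ContDiff ℝ ∞ (fun y => F (i j) (y + w j)) := fun j =>
      (F (i j)).2.1.comp (contDiff_id.add contDiff_const)
    have hx : dx (fun y => ∑ j, t j * F (i j) (y + w j)) =
        fun z => ∑ j, t j * dx (fun y => F (i j) (y + w j)) z := by
      funext z
      exact dx_sum (fun j y => F (i j) (y + w j)) t hg 1 z
    have hy : dy (fun y => ∑ j, t j * F (i j) (y + w j)) =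
        fun z => ∑ j, t j * dy (fun y => F (i j) (y + w j)) z := by
      funext z
      exact dx_sum (fun j y => F (i j) (y + w j)) t hg Complex.I z
    have h1 : lap (fun y => ∑ j, t j * F (i j) (y + w j)) z =
        ∑ j, t j * lap (fun y => F (i j) (y + w j)) z := by
      unfold lap
      rw [hx, hy]
      have e1 := dx_sum (fun j => dx (fun y => F (i j) (y + w j))) t
        (fun j => fd_smooth (hg j) 1) 1 z
      have e2 := dx_sum (fun j => dy (fun y => F (i j) (y + w j))) t
        (fun j => fd_smooth (hg j) Complex.I) Complex.I z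
      have e1' : dx (fun z => ∑ j, t j * dx (fun y => F (i j) (y + w j)) z) z =
          ∑ j, t j * dx (dx (fun y => F (i j) (y + w j))) z := e1
      have e2' : dy (fun z => ∑ j, t j * dy (fun y => F (i j) (y + w j)) z) z =
          ∑ j, t j * dy (dy (fun y => F (i j) (y + w j))) z := e2
      rw [e1', e2', ← Finset.sum_add_distrib]
      exact Finset.sum_congr rfl fun j _ => by ring
    rw [h1, ← Finset.sum_add_distrib]
    refine Finset.sum_eq_zero fun j _ => ?_
    rw [lap_add, ← mul_add, (F (i j)).2.2 (z + w j), mul_zero]⟩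

/-- the translate of a tuple -/
def jshift (x : ℂ) (F : Fin k → MW) : Fin k → MW := fun i => shift x (F i)

theorem jshift_meas (x : ℂ) : Measurable (jshift (k := k) x) :=
  measurable_pi_iff.2 fun i => (meas_shift x).comp (measurable_pi_apply i)

theorem jwave_meas (i : Fin n → Fin k) (w : Fin n → ℂ) (t : Fin n → ℝ) :
    Measurable (jwave i w t) := by
  refine Measurable.subtype_mk (measurable_pi_iff.2 fun y => ?_)
  exact Finset.measurable_sum _ fun j _ =>
    ((meas_eval (y + w j)).comp (measurable_pi_apply (i j))).const_mul _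

theorem jwave_shift (i : Fin n → Fin k) (w : Fin n → ℂ) (t : Fin n → ℝ) (x : ℂ)
    (F : Fin k → MW) : jwave i w t (jshift x F) = shift x (jwave i w t F) := by
  apply Subtype.ext
  funext y
  show ∑ j, t j * F (i j) (y + w j + x) = ∑ j, t j * F (i j) (y + x + w j)
  exact Finset.sum_congr rfl fun j _ => by rw [add_right_comm]

theorem jwave_zero (i : Fin n → Fin k) (w : Fin n → ℂ) (t : Fin n → ℝ) (F : Fin k → MW) :
    jwave i w t F 0 = ∑ j, t j * F (i j) (w j) := by
  show ∑ j, t j * F (i j) (0 + w j) = _
  exact Finset.sum_congr rfl fun j _ => by rw [zero_add]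

theorem jwave_stat {μ : Measure (Fin k → MW)} (hs : ∀ x : ℂ, μ.map (jshift x) = μ)
    (i : Fin n → Fin k) (w : Fin n → ℂ) (t : Fin n → ℝ) : IsStationary (μ.map (jwave i w t)) := by
  intro x
  rw [Measure.map_map (meas_shift x) (jwave_meas i w t)]
  have e : shift x ∘ jwave i w t = jwave i w t ∘ jshift x := by
    funext F
    exact (jwave_shift i w t x F).symm
  rw [e, ← Measure.map_map (jwave_meas i w t) (jshift_meas x), hs x]

/-- bounded linear combinations of values of several jointly stationary waves -/
theorem joint_cx {μ : Measure (Fin k → MW)} [IsProbabilityMeasure μ]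
    (hs : ∀ x : ℂ, μ.map (jshift x) = μ) {g : ℝ → ℝ} (hg : ConvexOn ℝ Set.univ g)
    (i : Fin n → Fin k) (w : Fin n → ℂ) (t : Fin n → ℝ) {M : ℝ} (hM0 : 0 ≤ M)
    (h : ∀ᵐ F : Fin k → MW ∂μ, |∑ j, t j * F (i j) (w j)| ≤ M) :
    ∫ F : Fin k → MW, g (∑ j, t j * F (i j) (w j)) ∂μ ≤ arc g M := by
  have hgc : Continuous g := hg.locallyLipschitz.continuous
  have hm := jwave_meas (k := k) i w t
  have hp : IsProbabilityMeasure (μ.map (jwave i w t)) :=
    Measure.isProbabilityMeasure_map hm.aemeasurable
  have hs' := jwave_stat hs i w t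
  have hb : ∀ᵐ f : MW ∂(μ.map (jwave i w t)), |f 0| ≤ M := by
    have hA : MeasurableSet {f : MW | |f 0| ≤ M} :=
      measurableSet_le (measurable_norm.comp (meas_eval 0)) measurable_const
    rw [ae_map_iff hm.aemeasurable hA]
    filter_upwards [h] with F hF
    rwa [jwave_zero]
  have h1 := rwave_cx hs' hg hM0 hb
  rw [integral_map hm.aemeasurable (f := fun f : MW => g (f 0))
    ((hgc.measurable.comp (meas_eval 0)).aestronglyMeasurable)] at h1
  refine le_trans (le_of_eq ?_) h1
  exact integral_congr_ae (Eventually.of_forall fun F => by simp only [jwave_zero])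

end

end Pool.Agent.U820.BW
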