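import Pool.Agent.U820.BW.Cx
import Pool.Agent.U524.SN.Int

/-! # Values of bounded eigenfunctions: the convex order -/

set_option autoImplicit false
open MeasureTheory Filter Topology Complex Set
open scoped ContDiff

namespace Pool.Agent.U820.BW

open Pool.Agent.U524.SN

noncomputable section

variable {U : Set ℂ}

section ibp

variable {χ u : ℂ → ℝ} {N : ℝ} {φ φ' : ℝ → ℝ}

theorem comp_cont {f : ℝ → ℝ} (hf : ContinuousOn f (Ioo (-N) N)) (hu : ContinuousOn u U)
    (hN : ∀ z ∈ U, |u z| < N) : ContinuousOn (fun z => f (u z)) U :=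
  hf.comp hu fun z hz => abs_lt.1 (hN z hz)

theorem ibp1g (hU : IsOpen U) (hχ : ContDiff ℝ ∞ χ)
    (hc : HasCompactSupport χ) (hs : tsupport χ ⊆ U) (hu : ContDiffOn ℝ ∞ u U)
    (hφ : ∀ x, |x| < N → HasDerivAt φ (φ' x) x) (hφ' : ContinuousOn φ' (Ioo (-N) N))
    (hN : ∀ z ∈ U, |u z| < N) (a : ℂ) :
    ∫ z, χ z * (φ' (u z) * D a u z ^ 2 + φ (u z) * D a (D a u) z) =
      -∫ z, D a χ z * (φ (u z) * D a u z) := by
  have hφc : ContinuousOn φ (Ioo (-N) N) := fun x hx =>
    (hφ x (abs_lt.2 hx)).continuousAt.continuousWithinAt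
  have s0 := hu.continuousOn
  have s1 := (D_smooth hU hu a).continuousOn
  have s2 := (D_smooth hU (D_smooth hU hu a) a).continuousOn
  have c0 := comp_cont hφc s0 hN
  have c1 := comp_cont hφ' s0 hN
  have hd : ∀ z ∈ U, DifferentiableAt ℝ (fun z => φ (u z)) z := fun z hz =>
    ((hφ _ (hN z hz)).differentiableAt).comp z (diffAt hU hu hz)
  have hDe : ∀ z ∈ U, D a (fun z => φ (u z) * D a u z) z =
      φ' (u z) * D a u z ^ 2 + φ (u z) * D a (D a u) z := by
    intro z hz
    have e2 : D a (fun z => φ (u z)) z = φ' (u z) * D a u z :=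
      D_comp (F := φ) (F' := φ' (u z)) (diffAt hU hu hz) (hφ _ (hN z hz)) a
    rw [D_mul (f := fun z => φ (u z)) (hd z hz) (diffAt hU (D_smooth hU hu a) hz) a, e2]
    ring
  have hDG : ContinuousOn (D a (fun z => φ (u z) * D a u z)) U :=
    ((c1.mul (s1.pow 2)).add (c0.mul s2)).congr hDe
  have h := integral_mul_fderiv_eq_neg_fderiv_mul_of_integrable (f := χ)
    (g := fun z => φ (u z) * D a u z) (v := a) (μ := volume)
    (int_prod hU (D_cont hχ a) (D_supp hc a) ((D_tsupp a).trans hs) (c0.mul s1))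
    (int_prod hU hχ.continuous hc hs hDG)
    (int_prod hU hχ.continuous hc hs (c0.mul s1))
    (fun x _ => hχ.differentiable (by simp) x)
    (fun x hx => (hd x (hs hx)).mul (diffAt hU (D_smooth hU hu a) (hs hx)))
  refine Eq.trans ?_ h
  refine integral_congr_ae (Eventually.of_forall fun z => ?_)
  by_cases hz : z ∈ tsupport χ
  · show χ z * _ = χ z * D a (fun z => φ (u z) * D a u z) z
    rw [hDe z (hs hz)]
  · show χ z * _ = χ z * _
    rw [image_eq_zero_of_notMem_tsupport hz, zero_mul, zero_mul]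

theorem ibpg (hU : IsOpen U) (hχ : ContDiff ℝ ∞ χ)
    (hc : HasCompactSupport χ) (hs : tsupport χ ⊆ U) (hu : ContDiffOn ℝ ∞ u U)
    (hφ : ∀ x, |x| < N → HasDerivAt φ (φ' x) x) (hφ' : ContinuousOn φ' (Ioo (-N) N))
    (hN : ∀ z ∈ U, |u z| < N) :
    (∫ z, χ z * (φ' (u z) * W u z)) + ∫ z, χ z * (φ (u z) * L u z) =
      -∫ z, φ (u z) * (D 1 χ z * D 1 u z + D I χ z * D I u z) := by
  have hφc : ContinuousOn φ (Ioo (-N) N) := fun x hx =>
    (hφ x (abs_lt.2 hx)).continuousAt.continuousWithinAt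
  have h1 := ibp1g hU hχ hc hs hu hφ hφ' hN 1
  have h2 := ibp1g hU hχ hc hs hu hφ hφ' hN I
  have s1 := (D_smooth hU hu 1).continuousOn
  have s2 := (D_smooth hU hu I).continuousOn
  have s3 := (D_smooth hU (D_smooth hU hu 1) 1).continuousOn
  have s4 := (D_smooth hU (D_smooth hU hu I) I).continuousOn
  have s0 := hu.continuousOn
  have c0 := comp_cont hφc s0 hN
  have c1 := comp_cont hφ' s0 hN
  have i1 : Integrable fun z => χ z * (φ' (u z) * D 1 u z ^ 2 + φ (u z) * D 1 (D 1 u) z) :=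
    int_prod hU hχ.continuous hc hs ((c1.mul (s1.pow 2)).add (c0.mul s3))
  have i2 : Integrable fun z => χ z * (φ' (u z) * D I u z ^ 2 + φ (u z) * D I (D I u) z) :=
    int_prod hU hχ.continuous hc hs ((c1.mul (s2.pow 2)).add (c0.mul s4))
  have i3 : Integrable fun z => χ z * (φ' (u z) * W u z) :=
    int_prod hU hχ.continuous hc hs (c1.mul ((s1.pow 2).add (s2.pow 2)))
  have i4 : Integrable fun z => χ z * (φ (u z) * L u z) :=
    int_prod hU hχ.continuous hc hs (c0.mul (s3.add s4))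
  have i5 : Integrable fun z => D 1 χ z * (φ (u z) * D 1 u z) :=
    int_prod hU (D_cont hχ 1) (D_supp hc 1) ((D_tsupp 1).trans hs) (c0.mul s1)
  have i6 : Integrable fun z => D I χ z * (φ (u z) * D I u z) :=
    int_prod hU (D_cont hχ I) (D_supp hc I) ((D_tsupp I).trans hs) (c0.mul s2)
  rw [← integral_add i3 i4]
  have e1 : (∫ z, (χ z * (φ' (u z) * W u z) + χ z * (φ (u z) * L u z))) =
      (∫ z, χ z * (φ' (u z) * D 1 u z ^ 2 + φ (u z) * D 1 (D 1 u) z)) +
      ∫ z, χ z * (φ' (u z) * D I u z ^ 2 + φ (u z) * D I (D I u) z) := by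
    rw [← integral_add i1 i2]
    refine integral_congr_ae (Eventually.of_forall fun z => ?_)
    simp only [W, L]
    ring
  have e2 : (∫ z, φ (u z) * (D 1 χ z * D 1 u z + D I χ z * D I u z)) =
      (∫ z, D 1 χ z * (φ (u z) * D 1 u z)) + ∫ z, D I χ z * (φ (u z) * D I u z) := by
    rw [← integral_add i5 i6]
    refine integral_congr_ae (Eventually.of_forall fun z => ?_)
    simp only []
    ring
  rw [e1, e2, h1, h2]
  ring

end ibp

/-- **Bounded eigenfunctions: the law of the values is dominated in the convex order.** -/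
theorem cx (hU : IsOpen U) {g : ℝ → ℝ} (hg : ConvexOn ℝ univ g) {ρ : ℂ → ℝ}
    (hρ : ContDiffOn ℝ ∞ ρ U) (hρ0 : ∀ z ∈ U, 0 < ρ z)
    {χ : ℂ → ℝ} (hχ : ContDiff ℝ ∞ χ) (hc : HasCompactSupport χ) (hs : tsupport χ ⊆ U)
    (hχ0 : ∀ z, 0 ≤ χ z) {M N : ℝ} (hM0 : 0 ≤ M) (hMN : M < N) {ε : ℝ} (hε : 0 < ε) :
    ∀ᶠ lam : ℝ in atTop, ∀ u : ℂ → ℝ, ContDiffOn ℝ ∞ u U →
      (∀ z ∈ U, L u z + lam * (ρ z * u z) = 0) → (∀ z ∈ U, |u z| ≤ M) →
      (∫ z, χ z * (ρ z * g (u z))) ≤ arc g N * (∫ z, χ z * ρ z) + ε := by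
  have hgc : Continuous g := hg.locallyLipschitz.continuous
  have hρc := hρ.continuousOn
  have hK : IsCompact (tsupport χ) := hc
  have iρ : Integrable fun z => χ z * ρ z := int_prod hU hχ.continuous hc hs hρc
  set A₁ : ℝ := ∫ z, χ z * ρ z with hA₁
  have hpos : ∀ z, 0 ≤ χ z * ρ z := by
    intro z
    by_cases hz : z ∈ tsupport χ
    · exact mul_nonneg (hχ0 z) (hρ0 z (hs hz)).le
    · rw [image_eq_zero_of_notMem_tsupport hz, zero_mul]
  have hA₁0 : 0 ≤ A₁ := integral_nonneg hpos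
  -- bounds for `ph` and `dp` on `[-M, M]`
  have hsub : Icc (-M) M ⊆ Ioo (-N) N := fun x hx => ⟨by linarith [hx.1], by linarith [hx.2]⟩
  obtain ⟨B, hB⟩ : ∃ B, ∀ x ∈ Icc (-M) M, |ph g N x| ≤ B := by
    obtain ⟨B, hB⟩ := (isCompact_Icc.image_of_continuousOn
      (((ph_cont hgc N).mono hsub).abs)).bddAbove
    exact ⟨B, fun x hx => hB ⟨x, hx, rfl⟩⟩
  obtain ⟨B', hB'⟩ : ∃ B', ∀ x ∈ Icc (-M) M, dp g N x ≤ B' := by
    obtain ⟨B', hB'⟩ := (isCompact_Icc.image_of_continuousOn
      ((dp_cont hgc N).mono hsub)).bddAbove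
    exact ⟨B', fun x hx => hB' ⟨x, hx, rfl⟩⟩
  have hz0 : (0 : ℝ) ∈ Icc (-M) M := ⟨by linarith, hM0⟩
  have hB0 : 0 ≤ B := (abs_nonneg _).trans (hB 0 hz0)
  have hN0 : 0 < N := hM0.trans_lt hMN
  have hB'0 : 0 ≤ B' := (dp_nonneg hg (N := N) (x := 0) (by simpa using hN0)).trans (hB' 0 hz0)
  set ε' : ℝ := ε / (2 * (B' * N ^ 2 * A₁ + 1)) with hε'
  have hden : 0 < 2 * (B' * N ^ 2 * A₁ + 1) := by positivity
  have hε'0 : 0 < ε' := div_pos hε hden
  obtain ⟨R, hR⟩ : ∃ R : ℝ, ∀ z ∈ tsupport χ, ρ z ≤ R := by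
    obtain ⟨R, hR⟩ := (hK.image_of_continuousOn (hρc.mono hs)).bddAbove
    exact ⟨R, fun z hz => hR ⟨z, hz, rfl⟩⟩
  set R' : ℝ := max R 0 with hR'
  have hR'0 : 0 ≤ R' := le_max_right _ _
  set S : ℝ := √((1 + ε') * (R' * M ^ 2)) with hS
  have hSsq : S ^ 2 = (1 + ε') * (R' * M ^ 2) := Real.sq_sqrt (by positivity)
  have hwc : Continuous fun z => √(W χ z) :=
    Real.continuous_sqrt.comp (((D_cont hχ 1).pow 2).add ((D_cont hχ I).pow 2))
  have hwi : Integrable fun z => √(W χ z) := by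
    refine hwc.integrable_of_hasCompactSupport (HasCompactSupport.intro hK fun z hz => ?_)
    unfold W
    rw [D_out hz, D_out hz]
    simp
  set C : ℝ := B * (S * ∫ z, √(W χ z)) with hC
  have c1 : ∀ᶠ lam : ℝ in atTop, C / √lam ≤ ε / 2 := by
    have h1 : Tendsto (fun lam : ℝ => C / √lam) atTop (𝓝 0) :=
      tendsto_const_nhds.div_atTop Real.tendsto_sqrt_atTop
    exact (h1.eventually_lt_const (by positivity)).mono fun _ h => h.le
  filter_upwards [grad_loc hU hK hs hρ hρ0 hε'0, c1, eventually_gt_atTop 0] with lam hg' c1 hlam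
  intro u hu heq hM
  have hgr := hg' u hu heq M hM
  have hN : ∀ z ∈ U, |u z| < N := fun z hz => (hM z hz).trans_lt hMN
  have s0 := hu.continuousOn
  have s1 := (D_smooth hU hu 1).continuousOn
  have s2 := (D_smooth hU hu I).continuousOn
  have cp := comp_cont (ph_cont hgc N) s0 hN
  have cd := comp_cont (dp_cont hgc N) s0 hN
  have cg : ContinuousOn (fun z => g (u z)) U := hgc.comp_continuousOn s0
  have i1 : Integrable fun z => χ z * (ρ z * (dp g N (u z) * (N ^ 2 - u z ^ 2))) :=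
    int_prod hU hχ.continuous hc hs (hρc.mul (cd.mul (continuousOn_const.sub (s0.pow 2))))
  have i2 : Integrable fun z => χ z * (ρ z * (u z * ph g N (u z))) :=
    int_prod hU hχ.continuous hc hs (hρc.mul (s0.mul cp))
  have i3 : Integrable fun z => χ z * (ρ z * g (u z)) :=
    int_prod hU hχ.continuous hc hs (hρc.mul cg)
  have iW : Integrable fun z => χ z * (dp g N (u z) * W u z) :=
    int_prod hU hχ.continuous hc hs (cd.mul ((s1.pow 2).add (s2.pow 2)))
  set P : ℝ := ∫ z, χ z * (ρ z * (dp g N (u z) * (N ^ 2 - u z ^ 2))) with hP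
  set J : ℝ := ∫ z, χ z * (ρ z * (u z * ph g N (u z))) with hJ
  -- `P` is bounded
  have hPP : P ≤ B' * N ^ 2 * A₁ := by
    rw [hP, hA₁, ← integral_const_mul]
    refine integral_mono i1 (iρ.const_mul _) fun z => ?_
    by_cases hz : z ∈ tsupport χ
    · have hzU := hs hz
      have k0 : 0 ≤ N ^ 2 - u z ^ 2 := (pos_of_lt (hN z hzU)).2.1.le
      have k1 : dp g N (u z) * (N ^ 2 - u z ^ 2) ≤ B' * N ^ 2 := by
        calc dp g N (u z) * (N ^ 2 - u z ^ 2) ≤ B' * (N ^ 2 - u z ^ 2) :=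
              mul_le_mul_of_nonneg_right (hB' _ (abs_le.1 (hM z hzU))) k0
          _ ≤ B' * N ^ 2 := mul_le_mul_of_nonneg_left (by linarith [sq_nonneg (u z)]) hB'0
      calc χ z * (ρ z * (dp g N (u z) * (N ^ 2 - u z ^ 2))) =
            (χ z * ρ z) * (dp g N (u z) * (N ^ 2 - u z ^ 2)) := by ring
        _ ≤ (χ z * ρ z) * (B' * N ^ 2) := mul_le_mul_of_nonneg_left k1 (hpos z)
        _ = B' * N ^ 2 * (χ z * ρ z) := by ring
    · simp [image_eq_zero_of_notMem_tsupport hz]
  -- the gradient estimate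
  have hG : ∫ z, χ z * (dp g N (u z) * W u z) ≤ lam * ((1 + ε') * P) := by
    have e : lam * ((1 + ε') * P) = ∫ z, lam * ((1 + ε') *
        (χ z * (ρ z * (dp g N (u z) * (N ^ 2 - u z ^ 2))))) := by
      rw [integral_const_mul, integral_const_mul]
    rw [e]
    refine integral_mono iW ((i1.const_mul _).const_mul _) fun z => ?_
    by_cases hz : z ∈ tsupport χ
    · have hzU := hs hz
      have k1 := hgr z hz
      have k3 : W u z ≤ lam * ((1 + ε') * (ρ z * (N ^ 2 - u z ^ 2))) := by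
        refine k1.trans (mul_le_mul_of_nonneg_left (mul_le_mul_of_nonneg_left
          (mul_le_mul_of_nonneg_left ?_ (hρ0 z hzU).le) (by linarith)) hlam.le)
        nlinarith
      have k2 : 0 ≤ χ z * dp g N (u z) := mul_nonneg (hχ0 z) (dp_nonneg hg (hN z hzU))
      calc χ z * (dp g N (u z) * W u z) = (χ z * dp g N (u z)) * W u z := by ring
        _ ≤ (χ z * dp g N (u z)) * (lam * ((1 + ε') * (ρ z * (N ^ 2 - u z ^ 2)))) :=
            mul_le_mul_of_nonneg_left k3 k2
        _ = lam * ((1 + ε') * (χ z * (ρ z * (dp g N (u z) * (N ^ 2 - u z ^ 2))))) := by ring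
    · simp [image_eq_zero_of_notMem_tsupport hz]
  -- integration by parts
  have hI := ibpg hU hχ hc hs hu (fun x hx => ph_deriv hgc hx) (dp_cont hgc N) hN
  have hL : ∫ z, χ z * (ph g N (u z) * L u z) = -(lam * J) := by
    rw [hJ, ← integral_const_mul, ← integral_neg]
    refine integral_congr_ae (Eventually.of_forall fun z => ?_)
    by_cases hz : z ∈ tsupport χ
    · have k1 := heq z (hs hz)
      have k2 : L u z = -(lam * (ρ z * u z)) := by linarith
      simp only [k2]
      ring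
    · simp [image_eq_zero_of_notMem_tsupport hz]
  have hE : |∫ z, ph g N (u z) * (D 1 χ z * D 1 u z + D I χ z * D I u z)| ≤ C * √lam := by
    have hb : ∀ z, ‖ph g N (u z) * (D 1 χ z * D 1 u z + D I χ z * D I u z)‖ ≤
        (B * (√lam * S)) * √(W χ z) := by
      intro z
      by_cases hz : z ∈ tsupport χ
      · have hzU := hs hz
        rw [norm_mul, Real.norm_eq_abs, Real.norm_eq_abs]
        have k1 : |ph g N (u z)| ≤ B := hB _ (abs_le.1 (hM z hzU))
        have k2 : |D 1 χ z * D 1 u z + D I χ z * D I u z| ≤ √lam * S * √(W χ z) := by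
          refine abs_le_of_sq_le_sq ?_ (by positivity)
          have a1 : (D 1 χ z * D 1 u z + D I χ z * D I u z) ^ 2 ≤ W χ z * W u z := by
            unfold W
            nlinarith [sq_nonneg (D 1 χ z * D I u z - D I χ z * D 1 u z)]
          have a2 : W u z ≤ lam * S ^ 2 := by
            refine (hgr z hz).trans ?_
            rw [hSsq]
            refine mul_le_mul_of_nonneg_left ?_ hlam.le
            refine mul_le_mul_of_nonneg_left ?_ (by linarith)
            have b1 : M ^ 2 - u z ^ 2 ≤ M ^ 2 := by linarith [sq_nonneg (u z)]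
            calc ρ z * (M ^ 2 - u z ^ 2) ≤ ρ z * M ^ 2 :=
                  mul_le_mul_of_nonneg_left b1 (hρ0 z hzU).le
              _ ≤ R' * M ^ 2 := mul_le_mul_of_nonneg_right
                  ((hR z hz).trans (le_max_left _ _)) (sq_nonneg _)
          have a3 : (√lam * S * √(W χ z)) ^ 2 = W χ z * (lam * S ^ 2) := by
            rw [mul_pow, mul_pow, Real.sq_sqrt hlam.le,
              Real.sq_sqrt (by unfold W; positivity : 0 ≤ W χ z)]
            ring
          rw [a3]
          exact a1.trans (mul_le_mul_of_nonneg_left a2 (by unfold W; positivity))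
        calc |ph g N (u z)| * |D 1 χ z * D 1 u z + D I χ z * D I u z| ≤
            B * (√lam * S * √(W χ z)) :=
              mul_le_mul k1 k2 (abs_nonneg _) hB0
          _ = _ := by ring
      · rw [D_out hz, D_out hz]
        simp only [zero_mul, add_zero, mul_zero, norm_zero]
        positivity
    have h1 := norm_integral_le_of_norm_le (hwi.const_mul (B * (√lam * S)))
      (Eventually.of_forall hb)
    rw [integral_const_mul, Real.norm_eq_abs] at h1
    refine h1.trans (le_of_eq ?_)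
    rw [hC]
    ring
  rw [hL] at hI
  have hE' := (abs_le.1 hE).1
  have hsl : 0 < √lam := Real.sqrt_pos.2 hlam
  have hll : √lam * √lam = lam := Real.mul_self_sqrt hlam.le
  -- `lam J ≤ lam (1 + ε') P + C √lam`
  have q1 : lam * J ≤ lam * ((1 + ε') * P) + C * √lam := by
    have := (abs_le.1 hE).2
    linarith
  have q2 : C * √lam ≤ lam * (ε / 2) := by
    rw [div_le_iff₀ hsl] at c1
    calc C * √lam ≤ (ε / 2 * √lam) * √lam := mul_le_mul_of_nonneg_right c1 hsl.le
      _ = lam * (ε / 2) := by rw [mul_assoc, hll]; ring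
  have q3 : J ≤ (1 + ε') * P + ε / 2 := by
    have : lam * J ≤ lam * ((1 + ε') * P + ε / 2) := by linarith
    exact le_of_mul_le_mul_left this hlam
  have q4 : ε' * P ≤ ε / 2 := by
    calc ε' * P ≤ ε' * (B' * N ^ 2 * A₁) := mul_le_mul_of_nonneg_left hPP hε'0.le
      _ ≤ ε' * (B' * N ^ 2 * A₁ + 1) := mul_le_mul_of_nonneg_left (by linarith) hε'0.le
      _ = ε / 2 := by rw [hε']; field_simp
  have q5 : J - P = (∫ z, χ z * (ρ z * g (u z))) - arc g N * A₁ := by
    rw [hJ, hP, hA₁, ← integral_sub i2 i1, ← integral_const_mul,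
      ← integral_sub i3 (iρ.const_mul _)]
    refine integral_congr_ae (Eventually.of_forall fun z => ?_)
    by_cases hz : z ∈ tsupport χ
    · have k1 := eqn (g := g) (hN z (hs hz))
      have k2 : χ z * (ρ z * (u z * ph g N (u z))) -
          χ z * (ρ z * (dp g N (u z) * (N ^ 2 - u z ^ 2))) =
          χ z * (ρ z * (u z * ph g N (u z) - dp g N (u z) * (N ^ 2 - u z ^ 2))) := by ring
      simp only [k2, k1]
      ring
    · simp [image_eq_zero_of_notMem_tsupport hz]
  linarith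

end

end Pool.Agent.U820.BW
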