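import Pool.Agent.U820.BW.Pde
import Pool.Agent.U524.SN.PA

/-! # Bounded random waves: the convex order -/

set_option autoImplicit false
open MeasureTheory Filter Topology ProbabilityTheory
open scoped ContDiff ENNReal BoundedContinuousFunction

namespace Pool.Agent.U820.BW

open Pool.Agent.W745.RW (lap)
open Pool.Agent.N661.BR
open Pool.Agent.U524.SN
open Pool.Agent.U26.SB (lwave lwave_meas lwave_stat lwave_zero lin_meas lin_i4 ConvergesAlong
  law_tendsto pm fin_open resc_zero)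

noncomputable section

/-- letting `N` tend to `M` -/
theorem arc_le {g : ℝ → ℝ} (hg : Continuous g) {M x c : ℝ}
    (h : ∀ N, M < N → x ≤ arc g N * c) : x ≤ arc g M * c := by
  have h1 : Tendsto (fun N => arc g N * c) (𝓝[>] M) (𝓝 (arc g M * c)) :=
    (((arc_cont hg).mul continuous_const).tendsto M).mono_left nhdsWithin_le_nhds
  exact ge_of_tendsto h1 (eventually_nhdsWithin_of_forall fun N hN => h N hN)

theorem momg {μ : Measure MW} (hs : IsStationary μ) {g : ℝ → ℝ} (hg : Continuous g) (w : ℂ) :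
    ∫ f : MW, g (f w) ∂μ = ∫ f : MW, g (f 0) ∂μ := by
  have h := integral_map (μ := μ) (meas_shift w).aemeasurable (f := fun f : MW => g (f 0))
    ((hg.measurable.comp (meas_eval 0)).aestronglyMeasurable)
  rw [hs w] at h
  rw [h]
  refine integral_congr_ae (Eventually.of_forall fun f => ?_)
  have e : (shift w f) 0 = f w := by
    show f (0 + w) = f w
    rw [zero_add]
  show g (f w) = g ((shift w f) 0)
  rw [e]

theorem rwave_N {μ : Measure MW} [IsProbabilityMeasure μ] (hs : IsStationary μ) {g : ℝ → ℝ}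
    (hg : ConvexOn ℝ Set.univ g) {M N : ℝ} (hM0 : 0 ≤ M) (hMN : M < N)
    (h : ∀ᵐ f : MW ∂μ, |f 0| ≤ M) : ∫ f : MW, g (f 0) ∂μ ≤ arc g N := by
  have hgc : Continuous g := hg.locallyLipschitz.continuous
  have hall := bd_all hs h
  obtain ⟨B, hB⟩ : ∃ B, ∀ x, |x| ≤ M → |g x| ≤ B := by
    obtain ⟨B, hB⟩ := (isCompact_Icc (a := -M) (b := M)).exists_bound_of_continuousOn
      (f := g) hgc.continuousOn
    exact ⟨B, fun x hx => hB x (abs_le.1 hx)⟩
  obtain ⟨φ, hφ, hc, hpos, hφ0⟩ : ∃ φ : ℂ → ℝ, ContDiff ℝ ∞ φ ∧ HasCompactSupport φ ∧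
      0 < ∫ z, φ z ∧ ∀ z, 0 ≤ φ z := by
    let b : ContDiffBump (0 : ℂ) := ⟨1 / 2, 1, by norm_num, by norm_num⟩
    exact ⟨fun z => b z, b.contDiff, b.hasCompactSupport, b.integral_pos, fun z => b.nonneg⟩
  have iφ : Integrable φ := hφ.continuous.integrable_of_hasCompactSupport hc
  -- joint integrability
  have hJ : ∀ (r : ℝ), Integrable (fun p : MW × ℂ => φ p.2 * g (p.1 (r • p.2)))
      (μ.prod volume) := by
    intro r
    have hm : Measurable (fun p : MW × ℂ => φ p.2 * g (p.1 (r • p.2))) := by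
      have h1 : Measurable fun p : MW × ℂ => (r • p.2, p.1) :=
        (measurable_snd.const_smul r).prodMk measurable_fst
      have h2 : Measurable fun p : MW × ℂ => p.1 (r • p.2) :=
        Pool.Agent.N878.BR.meas_unc.comp h1
      exact (hφ.continuous.measurable.comp measurable_snd).mul (hgc.measurable.comp h2)
    have hd : Integrable (fun p : MW × ℂ => B * φ p.2) (μ.prod volume) :=
      (iφ.comp_snd μ).const_mul _
    refine hd.mono' hm.aestronglyMeasurable ?_
    have h3 : ∀ᵐ p : MW × ℂ ∂(μ.prod volume), ∀ z, |p.1 z| ≤ M :=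
      Measure.quasiMeasurePreserving_fst.ae hall
    filter_upwards [h3] with p hp
    rw [Real.norm_eq_abs, abs_mul, abs_of_nonneg (hφ0 _), mul_comm]
    exact mul_le_mul_of_nonneg_right (hB _ (hp _)) (hφ0 _)
  have hI : ∀ (r : ℝ), ∫ f : MW, (∫ z, φ z * g (f (r • z))) ∂μ =
      (∫ z, φ z) * ∫ f : MW, g (f 0) ∂μ := by
    intro r
    rw [integral_integral_swap (f := fun (f : MW) (z : ℂ) => φ z * g (f (r • z))) (hJ r)]
    rw [← integral_mul_const]
    congr 1
    funext z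
    rw [integral_const_mul, momg hs hgc]
  have hK : ∀ (r : ℝ), Integrable (fun f : MW => ∫ z, φ z * g (f (r • z))) μ :=
    fun r => (hJ r).integral_prod_left
  set A := ∫ z, φ z with hA
  have key : A * ∫ f : MW, g (f 0) ∂μ ≤ arc g N * A := by
    refine le_of_forall_pos_le_add fun ε hε => ?_
    obtain ⟨lam, h1, hlam⟩ := ((cx isOpen_univ hg (ρ := fun _ => 1) contDiffOn_const
      (fun _ _ => one_pos) hφ hc (Set.subset_univ _) hφ0 hM0 hMN hε).and
        (eventually_gt_atTop 0)).exists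
    have hr2 : √lam ^ 2 = lam := Real.sq_sqrt hlam.le
    have h2 : ∀ᵐ f : MW ∂μ, (∫ z, φ z * g (f (√lam • z))) ≤ arc g N * A + ε := by
      filter_upwards [hall] with f hf
      have h3 := h1 (fun z => f (√lam • z)) (f.2.1.comp (contDiff_const_smul _)).contDiffOn
        (fun z _ => by
          rw [L_scale f.2.1, hr2]
          have h4 : L f (√lam • z) + f (√lam • z) = 0 := f.2.2 _
          have h5 : L f (√lam • z) = - f (√lam • z) := by linarith
          show lam * L f (√lam • z) + lam * (1 * f (√lam • z)) = 0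
          rw [h5]
          ring) (fun z _ => hf _)
      simpa only [one_mul, mul_one] using h3
    have h6 := integral_mono_ae (hK (√lam)) (integrable_const (arc g N * A + ε)) h2
    rw [hI, integral_const, probReal_univ, one_smul] at h6
    exact h6
  have h7 : A * ∫ f : MW, g (f 0) ∂μ ≤ A * arc g N := by
    rw [mul_comm A (arc g N)]
    exact key
  exact le_of_mul_le_mul_left h7 hpos

/-- **Bounded random waves.** -/
theorem rwave_cx {μ : Measure MW} [IsProbabilityMeasure μ] (hs : IsStationary μ) {g : ℝ → ℝ}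
    (hg : ConvexOn ℝ Set.univ g) {M : ℝ} (hM0 : 0 ≤ M)
    (h : ∀ᵐ f : MW ∂μ, |f 0| ≤ M) : ∫ f : MW, g (f 0) ∂μ ≤ arc g M := by
  have hgc : Continuous g := hg.locallyLipschitz.continuous
  have := arc_le hgc (c := 1) (M := M) (x := ∫ f : MW, g (f 0) ∂μ)
    (fun N hN => by rw [mul_one]; exact rwave_N hs hg hM0 hN h)
  rwa [mul_one] at this

/-- the bounded linear functionals of a random wave -/
theorem lin_cx {μ : Measure MW} [IsProbabilityMeasure μ] (hs : IsStationary μ) {g : ℝ → ℝ}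
    (hg : ConvexOn ℝ Set.univ g) {k : ℕ}
    (w : Fin k → ℂ) (t : Fin k → ℝ) {M : ℝ} (hM0 : 0 ≤ M) (h : ∀ᵐ f ∂μ, |lin w t f| ≤ M) :
    ∫ f, g (lin w t f) ∂μ ≤ arc g M := by
  have hgc : Continuous g := hg.locallyLipschitz.continuous
  have hm := lwave_meas w t
  have hp : IsProbabilityMeasure (μ.map (lwave w t)) :=
    Measure.isProbabilityMeasure_map hm.aemeasurable
  have hs' := lwave_stat w t hs
  have hb : ∀ᵐ f : MW ∂(μ.map (lwave w t)), |f 0| ≤ M := by
    have hA : MeasurableSet {f : MW | |f 0| ≤ M} :=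
      measurableSet_le (measurable_norm.comp (meas_eval 0)) measurable_const
    rw [ae_map_iff hm.aemeasurable hA]
    filter_upwards [h] with f hf
    rwa [lwave_zero]
  have h1 := rwave_cx hs' hg hM0 hb
  rw [integral_map hm.aemeasurable (f := fun f : MW => g (f 0))
    ((hgc.measurable.comp (meas_eval 0)).aestronglyMeasurable)] at h1
  refine le_trans (le_of_eq ?_) h1
  exact integral_congr_ae (Eventually.of_forall fun f => by simp only [lwave_zero])

/-- the cutoff of the values at the levels `M` and `-M` -/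
def cl (M x : ℝ) : ℝ := max (-M) (min x M)

theorem cl_cont (M : ℝ) : Continuous (cl M) :=
  continuous_const.max (continuous_id.min continuous_const)

theorem cl_abs {M : ℝ} (hM : 0 ≤ M) (x : ℝ) : |cl M x| ≤ M :=
  abs_le.2 ⟨le_max_left _ _, max_le (by linarith) (min_le_right _ _)⟩

theorem cl_eq {M x : ℝ} (hx : |x| ≤ M) : cl M x = x := by
  unfold cl
  rw [min_eq_left (abs_le.1 hx).2, max_eq_right (abs_le.1 hx).1]

theorem g_bd {g : ℝ → ℝ} (hg : Continuous g) {M : ℝ} (hM : 0 ≤ M) :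
    ∃ B, ∀ x, ‖g (cl M x)‖ ≤ B := by
  obtain ⟨B, hB⟩ := (isCompact_Icc (a := -M) (b := M)).exists_bound_of_continuousOn
    (f := g) hg.continuousOn
  exact ⟨B, fun x => hB (cl M x) (abs_le.1 (cl_abs hM x))⟩

section fin

variable {Z : Type*} [MeasurableSpace Z] {ν : Measure Z} [IsFiniteMeasure ν]

theorem trunc_cx (h0 : ν ≠ 0) {μ : Measure MW} [IsProbabilityMeasure μ] (hs : IsStationary μ)
    {X : ℕ → Z → ℝ} (hX : ∀ n, AEMeasurable (X n) ν)
    (h : ∀ τ : ℝ, Tendsto (fun n => (((ν.real Set.univ)⁻¹ : ℝ) : ℂ) *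
      ∫ z, Complex.exp (Complex.I * ((τ * X n z : ℝ) : ℂ)) ∂ν) atTop
      (𝓝 (∫ f : MW, Complex.exp (Complex.I * ((τ * f 0 : ℝ) : ℂ)) ∂μ))) {M : ℝ} (hM : 0 ≤ M)
    (hsm : Tendsto (fun n => ν.real {z | M < |X n z|}) atTop (𝓝 0)) {g : ℝ → ℝ}
    (hg : ConvexOn ℝ Set.univ g) {ε : ℝ} (hε : 0 < ε) :
    ∀ᶠ n in atTop, ∫ z, g (cl M (X n z)) ∂ν ≤ (arc g M + ε) * ν.real Set.univ := by
  have hgc : Continuous g := hg.locallyLipschitz.continuous
  have hl : Measurable fun f : MW => f 0 := meas_eval 0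
  have hρp : IsProbabilityMeasure (μ.map fun f : MW => f 0) :=
    Measure.isProbabilityMeasure_map hl.aemeasurable
  have hu0 : ν Set.univ ≠ 0 := by simpa using h0
  have hpos : 0 < ν.real Set.univ := ENNReal.toReal_pos hu0 (measure_ne_top _ _)
  have hch : ∀ s : ℝ, Tendsto (fun n => (((ν.real Set.univ)⁻¹ : ℝ) : ℂ) *
      ∫ z, Complex.exp (Complex.I * ((s * X n z : ℝ) : ℂ)) ∂ν) atTop
      (𝓝 (∫ x, Complex.exp (Complex.I * ((s * x : ℝ) : ℂ)) ∂(μ.map fun f : MW => f 0))) := by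
    intro s
    rw [integral_map hl.aemeasurable (by fun_prop)]
    exact h s
  have hG : IsOpen {x : ℝ | M < |x|} := isOpen_lt continuous_const continuous_abs
  have ha : (μ.map fun f : MW => f 0).real {x : ℝ | M < |x|} = 0 := by
    by_contra hne
    have hp : 0 < (μ.map fun f : MW => f 0).real {x : ℝ | M < |x|} :=
      lt_of_le_of_ne measureReal_nonneg (Ne.symm hne)
    have h1 := fin_open h0 hX hch hG le_rfl (half_pos hp)
    set a := (μ.map fun f : MW => f 0).real {x : ℝ | M < |x|} with ha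
    have h2 : 0 < (a - a / 2) * ν.real Set.univ := mul_pos (by linarith) hpos
    obtain ⟨n, hn1, hn2⟩ := (h1.and (hsm.eventually_lt_const h2)).exists
    exact absurd hn1 (not_le.2 hn2)
  have hb : ∀ᵐ f : MW ∂μ, |f 0| ≤ M := by
    rw [ae_iff]
    rw [map_measureReal_apply hl hG.measurableSet, measureReal_def,
      ENNReal.toReal_eq_zero_iff] at ha
    rcases ha with ha | ha
    · have e : {f : MW | ¬ |f 0| ≤ M} = (fun f : MW => f 0) ⁻¹' {x : ℝ | M < |x|} := by
        ext f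
        show ¬ |f 0| ≤ M ↔ M < |f 0|
        exact not_le
      rw [e]
      exact ha
    · exact absurd ha (measure_ne_top _ _)
  have h2 := rwave_cx hs hg hM hb
  obtain ⟨B, hB⟩ := g_bd hgc hM
  let G : ℝ →ᵇ ℝ := BoundedContinuousFunction.ofNormedAddCommGroup (fun x => g (cl M x))
    (hgc.comp (cl_cont M)) B hB
  have h3 := fin_bcf h0 hX hch G
  have h4 : ∫ x, G x ∂(μ.map fun f : MW => f 0) ≤ arc g M := by
    rw [integral_map hl.aemeasurable G.continuous.aestronglyMeasurable]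
    have e : ∫ f : MW, G (f 0) ∂μ = ∫ f : MW, g (f 0) ∂μ := by
      refine integral_congr_ae ?_
      filter_upwards [hb] with f hf
      show g (cl M (f 0)) = g (f 0)
      rw [cl_eq hf]
    rw [e]
    exact h2
  filter_upwards [h3.eventually_lt_const (show _ < arc g M + ε by linarith)] with n hn
  have h5 : ∫ z, g (cl M (X n z)) ∂ν = ∫ z, G (X n z) ∂ν := rfl
  rw [h5]
  rw [inv_mul_lt_iff₀ hpos] at hn
  linarith

end fin

theorem area_cx {σ : ℕ → ℕ} {χ : ℝ → ℝ} {Ω : Set ℂ} (ho : IsOpen Ω)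
    (hb : Bornology.IsBounded Ω)
    (hne : Ω.Nonempty) (hχ : IsCutoff χ) {lam : ℕ → ℝ} {u : ℕ → ℂ → ℝ}
    (hu : ∀ n, ContDiffOn ℝ ∞ (u n) Ω) {μ : Measure MW} [IsProbabilityMeasure μ]
    (hs : IsStationary μ) (h : ConvergesAlong σ χ Ω lam u μ) {M : ℝ} (hM : 0 ≤ M)
    (hsm : Tendsto (fun n => volume.real {z | z ∈ Ω ∧ M < |u (σ n) z|}) atTop (𝓝 0)) {g : ℝ → ℝ}
    (hg : ConvexOn ℝ Set.univ g) {ε : ℝ} (hε : 0 < ε) :
    ∀ᶠ n in atTop, ∫ z in Ω, g (cl M (u (σ n) z)) ≤ (arc g M + ε) * volume.real Ω := by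
  have hfin : volume Ω ≠ ⊤ := hb.measure_lt_top.ne
  have hf : IsFiniteMeasure (volume.restrict Ω) :=
    ⟨by rw [Measure.restrict_apply_univ]; exact hfin.lt_top⟩
  have h0 : (volume.restrict Ω) ≠ 0 := by
    rw [Ne, Measure.restrict_eq_zero]
    exact (ho.measure_pos volume hne).ne'
  have hun : (volume.restrict Ω).real Set.univ = volume.real Ω := by
    rw [measureReal_restrict_apply_univ]
  have hr : ∀ A : Set ℂ, (volume.restrict Ω).real A = volume.real {z | z ∈ Ω ∧ z ∈ A} := by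
    intro A
    rw [measureReal_restrict_apply' ho.measurableSet, Set.inter_comm]
    rfl
  have e0 : ∀ (τ : ℝ) (f : MW), lin (fun _ : Fin 1 => (0 : ℂ)) (fun _ => τ) f = τ * f 0 := by
    intro τ f
    simp [lin]
  have h1 := trunc_cx (Z := ℂ) (ν := volume.restrict Ω) h0 (μ := μ) hs
    (X := fun n z => u (σ n) z)
    (fun n => (hu _).continuousOn.aemeasurable ho.measurableSet)
    (fun τ => by
      have h2 := h 1 (fun _ => 0) fun _ => τ
      simp only [e0, resc_zero hχ, Finset.univ_unique, Finset.sum_singleton] at h2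
      rw [hun]
      simpa only [one_div] using h2) (M := M) hM (by
      refine hsm.congr fun n => ?_
      rw [hr]
      rfl) hg hε
  filter_upwards [h1] with n hn
  rw [hun] at hn
  exact hn

/-- **All quantum ergodic sequences** -/
theorem qe_cx {Ω : Set ℂ} (hΩ : IsOpen Ω) (hb : Bornology.IsBounded Ω)
    (hne : Ω.Nonempty) {lam : ℕ → ℝ} (hpos : ∀ n, 0 < lam n) (hlam : Tendsto lam atTop atTop)
    {u : ℕ → ℂ → ℝ} (hu : ∀ n, ContDiffOn ℝ ∞ (u n) Ω)
    (heq : ∀ n, ∀ z ∈ Ω, lap (u n) z + lam n * u n z = 0) (hqe : IsQuantumErgodic Ω lam u)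
    {M : ℝ} (hM : 0 ≤ M) {g : ℝ → ℝ} (hg : ConvexOn ℝ Set.univ g) {ε : ℝ} (hε : 0 < ε) :
    ∃ δ : ℝ, 0 < δ ∧ ∀ᶠ n in atTop, volume.real {z | z ∈ Ω ∧ M < |u n z|} ≤ δ →
      ∫ z in Ω, g (cl M (u n z)) ≤ (arc g M + ε) * volume.real Ω := by
  by_contra hcon
  push Not at hcon
  have hcon' : ∀ j : ℕ, ∃ᶠ n in atTop, volume.real {z | z ∈ Ω ∧ M < |u n z|} ≤ 1 / ((j : ℝ) + 1) ∧
      (arc g M + ε) * volume.real Ω < ∫ z in Ω, g (cl M (u n z)) := fun j =>
    hcon _ (by positivity)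
  obtain ⟨τ, hτ, hτP⟩ := Filter.extraction_forall_of_frequently hcon'
  obtain ⟨χ, hχ⟩ := Pool.Agent.U26.SG.ex_cutoff
  have hlam' : Tendsto (lam ∘ τ) atTop atTop := hlam.comp hτ.tendsto_atTop
  have hqe' : IsQuantumErgodic Ω (lam ∘ τ) (u ∘ τ) := fun φ hφ k =>
    (hqe φ hφ k).comp hτ.tendsto_atTop
  obtain ⟨σ, μ, hσ, hμp, hμ⟩ := Pool.Agent.U26.SG.pl Ω hΩ hb hne (lam ∘ τ) (fun n => hpos _) hlam'
    (u ∘ τ) (fun n => hu _) (fun n => heq _) hqe' χ hχ
  have hex : Pool.Agent.U26.SG.Exh μ := Pool.Agent.U26.SG.exh_planar (lam := lam ∘ τ) (u := u ∘ τ)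
    hΩ hb hne (fun n => hpos _) hlam' (fun n => hu _) (fun n => heq _) hqe' hχ ⟨σ, hσ, hμ⟩
  have h1 := area_cx (lam := lam ∘ τ) (u := u ∘ τ) (M := M) hΩ hb hne hχ (fun n => hu _) hex.st
    hμ hM (by
      have h2 : Tendsto (fun n : ℕ => 1 / ((n : ℝ) + 1)) atTop (𝓝 0) :=
        tendsto_one_div_add_atTop_nhds_zero_nat
      refine tendsto_of_tendsto_of_tendsto_of_le_of_le tendsto_const_nhds
        (h2.comp hσ.tendsto_atTop) (fun n => measureReal_nonneg) fun n => ?_
      exact (hτP (σ n)).1) hg hε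
  obtain ⟨n, hn⟩ := h1.exists
  exact absurd hn (not_le.2 (hτP (σ n)).2)

end

end Pool.Agent.U820.BW
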